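import Mathlib

/-!
# Automorphisms of the regular rooted tree with alphabet an abelian group

`node s f` is the automorphism of the tree of finite words over `V` whose action on the first
letter is the translation by `s` and whose section at the first letter `x` is `f x`.
-/

namespace Q30.EB

open Equiv
open scoped commutatorElement

section Node

variable {V : Type*} [AddCommGroup V]

/-- The map of words with root translation `s` and sections `f`. -/
def nodeFun (s : V) (f : V → Perm (List V)) : List V → List V
  | [] => []
  | x :: w => (x + s) :: f x w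

/-- The inverse map. -/
def nodeInv (s : V) (f : V → Perm (List V)) : List V → List V
  | [] => []
  | y :: w => (y - s) :: (f (y - s))⁻¹ w

/-- The automorphism with root translation `s` and sections `f`. -/
def node (s : V) (f : V → Perm (List V)) : Perm (List V) where
  toFun := nodeFun s f
  invFun := nodeInv s f
  left_inv := by
    rintro (_ | ⟨x, w⟩) <;> simp [nodeFun, nodeInv]
  right_inv := by
    rintro (_ | ⟨y, w⟩) <;> simp [nodeFun, nodeInv]

@[simp] theorem node_nil (s : V) (f : V → Perm (List V)) : node s f [] = [] := rfl

@[simp] theorem node_cons (s : V) (f : V → Perm (List V)) (x : V) (w : List V) :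
    node s f (x :: w) = (x + s) :: f x w := rfl

theorem node_mul (s t : V) (f g : V → Perm (List V)) :
    node s f * node t g = node (t + s) (fun x => f (x + t) * g x) := by
  ext1 u
  rcases u with _ | ⟨x, w⟩
  · rfl
  · simp [Perm.mul_apply, add_assoc]

theorem node_one : node (0 : V) (fun _ => 1) = 1 := by
  ext1 u
  rcases u with _ | ⟨x, w⟩ <;> simp

theorem node_inv (s : V) (f : V → Perm (List V)) :
    (node s f)⁻¹ = node (-s) (fun y => (f (y - s))⁻¹) := by
  rw [inv_eq_iff_mul_eq_one, node_mul]
  simp only [neg_add_cancel]
  rw [← node_one]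
  congr 1
  funext x
  simp [sub_eq_add_neg]

theorem node_inj {s t : V} {f g : V → Perm (List V)} (h : node s f = node t g) :
    s = t ∧ f = g := by
  have h0 : ∀ x w, (x + s) :: f x w = (x + t) :: g x w := by
    intro x w
    rw [← node_cons, ← node_cons, h]
  refine ⟨?_, ?_⟩
  · have := h0 0 []
    simpa using (List.cons.inj this).1
  · funext x
    ext1 w
    exact (List.cons.inj (h0 x w)).2

/-- The rooted automorphism: translation of the first letter. -/
def a (s : V) : Perm (List V) := node s (fun _ => 1)

theorem a_zero : a (0 : V) = 1 := node_one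

theorem a_add (s t : V) : a (s + t) = a s * a t := by
  unfold a
  rw [node_mul]
  simp [add_comm]

theorem a_comm (s t : V) : a s * a t = a t * a s := by
  rw [← a_add, ← a_add, add_comm]

theorem a_neg (s : V) : a (-s) = (a s)⁻¹ := by
  rw [eq_comm, inv_eq_iff_mul_eq_one, ← a_add, add_neg_cancel, a_zero]

theorem a_mul_node (s t : V) (f : V → Perm (List V)) : a s * node t f = node (t + s) f := by
  unfold a
  rw [node_mul]
  simp

theorem node_mul_a (s t : V) (f : V → Perm (List V)) :
    node s f * a t = node (t + s) (fun x => f (x + t)) := by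
  unfold a
  rw [node_mul]
  simp

/-- Conjugation of an element of the first level stabiliser. -/
theorem conj_a (s : V) (f : V → Perm (List V)) :
    a s * node 0 f * a (-s) = node 0 (fun x => f (x - s)) := by
  rw [a_mul_node, node_mul_a]
  congr 1
  · simp
  · funext x
    rw [sub_eq_add_neg]

theorem node_zero_mul (f g : V → Perm (List V)) :
    node 0 f * node 0 g = node 0 (fun x => f x * g x) := by
  rw [node_mul]
  simp

theorem node_zero_inv (f : V → Perm (List V)) :
    (node 0 f)⁻¹ = node 0 (fun x => (f x)⁻¹) := by
  rw [node_inv]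
  simp

theorem node_zero_pow (f : V → Perm (List V)) (k : ℕ) :
    (node 0 f) ^ k = node 0 (fun x => (f x) ^ k) := by
  induction k with
  | zero => simp [node_one]
  | succ k ih =>
    rw [pow_succ, ih, node_zero_mul]
    simp [pow_succ]

theorem node_zero_comm (f g : V → Perm (List V)) (h : ∀ x, f x * g x = g x * f x) :
    node 0 f * node 0 g = node 0 g * node 0 f := by
  rw [node_zero_mul, node_zero_mul]
  congr 1
  funext x
  exact h x

theorem node_zero_commutator (f g : V → Perm (List V)) :
    ⁅node 0 f, node 0 g⁆ = node 0 (fun x => ⁅f x, g x⁆) := by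
  simp only [commutatorElement_def]
  rw [node_zero_inv, node_zero_inv, node_zero_mul, node_zero_mul,
    node_zero_mul]

/-- Conjugation of an element of the first level stabiliser by any automorphism. -/
theorem conj_node (s : V) (h f : V → Perm (List V)) :
    node s h * node 0 f * (node s h)⁻¹ =
      node 0 (fun x => h (x - s) * f (x - s) * (h (x - s))⁻¹) := by
  rw [node_inv, node_mul, node_mul]
  congr 1
  · simp
  · funext x
    simp [sub_eq_add_neg]

end Node

section Gens

variable {r n : ℕ}

/-- The alphabet. -/
abbrev V (r n : ℕ) := Fin r → ZMod n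

/-- The constant vector. -/
def cst (r n : ℕ) (k : ZMod n) : V r n := fun _ => k

/-- The `i`-th code position. -/
def D (r n : ℕ) (i : Fin r) : V r n := fun _ => (((i : ℕ) + 1 : ℕ) : ZMod n)

/-- The vector inserted at the position `x`. -/
def ins (j : ZMod n) (x : V r n) : V r n := fun i => if x = D r n i then j else 0

theorem ins_add (j k : ZMod n) (x : V r n) : ins (j + k) x = ins j x + ins k x := by
  funext i
  by_cases h : x = D r n i <;> simp [ins, h]

theorem ins_zero (x : V r n) : ins (0 : ZMod n) x = 0 := by
  funext i
  simp [ins]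

/-- The directed map. -/
def bf (j : ZMod n) : List (V r n) → List (V r n)
  | [] => []
  | x :: w => x :: (if x = 0 then bf j w else a (ins j x) w)

theorem bf_zero : ∀ w : List (V r n), bf 0 w = w
  | [] => rfl
  | x :: w => by
    rw [bf, bf_zero w]
    by_cases h : x = 0
    · simp [h]
    · simp [h, ins_zero, a_zero]

theorem bf_add (j k : ZMod n) : ∀ w : List (V r n), bf (j + k) w = bf j (bf k w)
  | [] => rfl
  | x :: w => by
    rw [bf, bf, bf]
    by_cases h : x = 0
    · simp only [h, if_true]
      rw [bf_add j k w]
    · simp only [h, if_false]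
      rw [ins_add, a_add]
      rfl

/-- The directed automorphism. -/
def b (j : ZMod n) : Perm (List (V r n)) where
  toFun := bf j
  invFun := bf (-j)
  left_inv w := by rw [← bf_add, neg_add_cancel, bf_zero]
  right_inv w := by rw [← bf_add, add_neg_cancel, bf_zero]

/-- The section of `b j` at `x`. -/
def B (j : ZMod n) (x : V r n) : Perm (List (V r n)) := if x = 0 then b j else a (ins j x)

theorem b_eq (j : ZMod n) : (b j : Perm (List (V r n))) = node 0 (B j) := by
  ext1 u
  rcases u with _ | ⟨x, w⟩
  · rfl
  · rw [node_cons, add_zero]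
    change bf j (x :: w) = _
    rw [bf, B]
    by_cases h : x = 0
    · simp only [h, if_true]; rfl
    · simp only [h, if_false]

theorem b_add (j k : ZMod n) : (b (j + k) : Perm (List (V r n))) = b j * b k := by
  ext1 u
  exact bf_add j k u

theorem b_zero : (b 0 : Perm (List (V r n))) = 1 := by
  ext1 u
  exact bf_zero u

theorem b_neg (j : ZMod n) : (b (-j) : Perm (List (V r n))) = (b j)⁻¹ := by
  rw [eq_comm, inv_eq_iff_mul_eq_one, ← b_add, add_neg_cancel, b_zero]

theorem b_comm (j k : ZMod n) : (b j : Perm (List (V r n))) * b k = b k * b j := by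
  rw [← b_add, ← b_add, add_comm]

theorem B_zero' (j : ZMod n) : B j (0 : V r n) = b j := by simp [B]

theorem B_ne (j : ZMod n) {x : V r n} (h : x ≠ 0) : B j x = a (ins j x) := by simp [B, h]

theorem B_add (j k : ZMod n) (x : V r n) : B (j + k) x = B j x * B k x := by
  by_cases h : x = 0
  · subst h; rw [B_zero', B_zero', B_zero', b_add]
  · rw [B_ne _ h, B_ne _ h, B_ne _ h, ins_add, a_add]

theorem B_comm (j k : ZMod n) (x : V r n) : B j x * B k x = B k x * B j x := by
  rw [← B_add, ← B_add, add_comm]

/-- The conjugate of `b j` by the translation by `v`. -/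
theorem conj_b (v : V r n) (j : ZMod n) :
    a v * b j * a (-v) = node 0 (fun x => B j (x - v)) := by
  rw [b_eq, conj_a]

/-- Code positions. -/
def Code (x : V r n) : Prop := ∃ k : ℕ, k ≤ r ∧ x = fun _ => (k : ZMod n)

theorem code_zero : Code (0 : V r n) := ⟨0, Nat.zero_le _, by funext i; simp⟩

theorem code_D (i : Fin r) : Code (D r n i) := ⟨(i : ℕ) + 1, i.2, rfl⟩

theorem ins_of_not_code (j : ZMod n) {x : V r n} (h : ¬ Code x) : ins j x = 0 := by
  funext i
  unfold ins
  rw [if_neg]
  · rfl
  · rintro rfl
    exact h (code_D i)

theorem B_of_not_code (j : ZMod n) {x : V r n} (h : ¬ Code x) : B j x = 1 := by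
  have hx : x ≠ 0 := by
    rintro rfl
    exact h code_zero
  rw [B_ne _ hx, ins_of_not_code j h, a_zero]

end Gens

end Q30.EB
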