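import Pool.Agent.Q30.EB.Grp

/-!
# The branching subgroup
-/

namespace Q30.EB

open Equiv
open scoped commutatorElement

variable {r n : ℕ}

/-- The element acting as `g` below the vertex `x` of the first level. -/
def dd (x : V r n) (g : Perm (List (V r n))) : Perm (List (V r n)) :=
  node 0 (fun y => if y = x then g else 1)

theorem dd_mul (x : V r n) (g h : Perm (List (V r n))) : dd x (g * h) = dd x g * dd x h := by
  unfold dd
  rw [node_zero_mul]
  congr 1
  funext y
  by_cases hy : y = x <;> simp [hy]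

theorem dd_one (x : V r n) : dd x (1 : Perm (List (V r n))) = 1 := by
  unfold dd
  simp only [ite_self]
  exact node_one

theorem dd_inv (x : V r n) (g : Perm (List (V r n))) : dd x g⁻¹ = (dd x g)⁻¹ := by
  rw [eq_comm, inv_eq_iff_mul_eq_one, ← dd_mul, mul_inv_cancel, dd_one]

theorem dd_conj (x : V r n) (f : V r n → Perm (List (V r n))) (g : Perm (List (V r n))) :
    node 0 f * dd x g * (node 0 f)⁻¹ = dd x (f x * g * (f x)⁻¹) := by
  unfold dd
  rw [node_zero_mul, node_zero_inv, node_zero_mul]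
  congr 1
  funext y
  by_cases hy : y = x
  · subst hy
    simp
  · simp [hy]

/-- The commutator subgroup. -/
def Der (r n : ℕ) : Subgroup (Perm (List (V r n))) := ⁅G r n, G r n⁆

theorem Der_le : Der r n ≤ G r n := by
  unfold Der
  rw [Subgroup.commutator_le]
  intro g hg h hh
  rw [commutatorElement_def]
  exact mul_mem (mul_mem (mul_mem hg hh) (inv_mem hg)) (inv_mem hh)

theorem Der_comm {g h : Perm (List (V r n))} (hg : g ∈ G r n) (hh : h ∈ G r n) :
    ⁅g, h⁆ ∈ Der r n := Subgroup.commutator_mem_commutator hg hh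

theorem Der_conj {g h : Perm (List (V r n))} (hg : g ∈ G r n) (hh : h ∈ Der r n) :
    g * h * g⁻¹ ∈ Der r n := by
  have h1 : g * h * g⁻¹ = ⁅g, h⁆ * h := by
    rw [commutatorElement_def]
    group
  rw [h1]
  exact mul_mem (Der_comm hg (Der_le hh)) hh

theorem not_code_neg_D (hn : 2 * r + 1 ≤ n) (i : Fin r) : ¬ Code (-D r n i) := by
  rintro ⟨k, hk, hki⟩
  have h1 := congrFun hki i
  unfold D at h1
  rw [Pi.neg_apply] at h1
  have h2 : ((k + (i + 1) : ℕ) : ZMod n) = 0 := by
    rw [Nat.cast_add, ← h1, neg_add_cancel]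
  rw [ZMod.natCast_eq_zero_iff] at h2
  have := Nat.le_of_dvd (by omega) h2
  omega

/-- The commutator of two conjugates of directed automorphisms. -/
theorem comm_conj (hn : 2 * r + 1 ≤ n) (x : V r n) (i : Fin r) (j k : ZMod n) :
    ⁅a x * b j * a (-x), a (x - D r n i) * b k * a (-(x - D r n i))⁆ =
      dd x ⁅(b j : Perm (List (V r n))), a (Pi.single i k)⁆ := by
  have hn' : r < n := by omega
  rw [conj_b, conj_b, node_zero_commutator]
  unfold dd
  congr 1
  funext y
  by_cases hy : y = x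
  · subst hy
    rw [sub_self, B_zero', sub_sub_cancel, B_D hn', if_pos rfl]
  · rw [if_neg hy, commutatorElement_eq_one_iff_mul_comm]
    have h0 : y - x ≠ 0 := sub_ne_zero.mpr hy
    by_cases h1 : y - (x - D r n i) = 0
    · have h2 : y - x = -D r n i := by
        have h3 : y - x = (y - (x - D r n i)) - D r n i := by abel
        rw [h3, h1, zero_sub]
      rw [h2, B_of_not_code j (not_code_neg_D hn i), one_mul, mul_one]
    · rw [B_ne _ h0, B_ne _ h1, a_comm]

/-- The elements `g` such that the copy of `g` below each vertex of the first level lies in the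
commutator subgroup. -/
def R (r n : ℕ) : Subgroup (Perm (List (V r n))) where
  carrier := {g | g ∈ G r n ∧ ∀ x, dd x g ∈ Der r n}
  mul_mem' := by
    rintro g h ⟨hg, hg'⟩ ⟨hh, hh'⟩
    refine ⟨mul_mem hg hh, fun x => ?_⟩
    rw [dd_mul]
    exact mul_mem (hg' x) (hh' x)
  one_mem' := ⟨one_mem _, fun x => by rw [dd_one]; exact one_mem _⟩
  inv_mem' := by
    rintro g ⟨hg, hg'⟩
    refine ⟨inv_mem hg, fun x => ?_⟩
    rw [dd_inv]
    exact inv_mem (hg' x)

theorem R_conj (hn : r < n) {g h : Perm (List (V r n))} (hg : g ∈ G r n) (hh : h ∈ R r n) :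
    g * h * g⁻¹ ∈ R r n := by
  refine ⟨mul_mem (mul_mem hg hh.1) (inv_mem hg), fun x => ?_⟩
  obtain ⟨f, hf, hfx⟩ := G_le_Sec hn x hg
  rw [← hfx, ← dd_conj]
  exact Der_conj hf (hh.2 x)

/-- The elements commuting with `t` modulo `R`. -/
def CC (hn : r < n) (t : Perm (List (V r n))) : Subgroup (Perm (List (V r n))) where
  carrier := {g | g ∈ G r n ∧ ⁅g, t⁆ ∈ R r n}
  mul_mem' := by
    rintro g h ⟨hg, hg'⟩ ⟨hh, hh'⟩
    refine ⟨mul_mem hg hh, ?_⟩
    have h1 : ⁅g * h, t⁆ = g * ⁅h, t⁆ * g⁻¹ * ⁅g, t⁆ := by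
      simp only [commutatorElement_def]
      group
    rw [h1]
    exact mul_mem (R_conj hn hg hh') hg'
  one_mem' := ⟨one_mem _, by rw [commutatorElement_one_left]; exact one_mem _⟩
  inv_mem' := by
    rintro g ⟨hg, hg'⟩
    refine ⟨inv_mem hg, ?_⟩
    have h1 : ⁅g⁻¹, t⁆ = g⁻¹ * ⁅g, t⁆⁻¹ * (g⁻¹)⁻¹ := by
      simp only [commutatorElement_def]
      group
    rw [h1]
    exact R_conj hn (inv_mem hg) (inv_mem hg')

theorem comm_mem_R (hn : 2 * r + 1 ≤ n) (i : Fin r) (j k : ZMod n) :
    ⁅(b j : Perm (List (V r n))), a (Pi.single i k)⁆ ∈ R r n := by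
  refine ⟨Der_le (Der_comm (b_mem _) (a_mem _)), fun x => ?_⟩
  rw [← comm_conj hn]
  exact Der_comm (mul_mem (mul_mem (a_mem _) (b_mem _)) (a_mem _))
    (mul_mem (mul_mem (a_mem _) (b_mem _)) (a_mem _))

theorem comm_mem_R' (hn : 2 * r + 1 ≤ n) (i : Fin r) (j k : ZMod n) :
    ⁅(a (Pi.single i k) : Perm (List (V r n))), b j⁆ ∈ R r n := by
  rw [← commutatorElement_inv]
  exact inv_mem (comm_mem_R hn i j k)

theorem Der_le_R (hn : 2 * r + 1 ≤ n) : Der r n ≤ R r n := by
  have hn' : r < n := by omega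
  have ha : ∀ (i : Fin r) (k : ZMod n), G r n ≤ CC hn' (a (Pi.single i k)) := by
    intro i k
    apply G_le'
    · intro i' k'
      refine ⟨a_mem _, ?_⟩
      rw [commutatorElement_eq_one_iff_mul_comm.mpr (a_comm _ _)]
      exact one_mem _
    · intro j
      exact ⟨b_mem _, comm_mem_R hn i j k⟩
  have hb : ∀ j : ZMod n, G r n ≤ CC hn' (b j) := by
    intro j
    apply G_le'
    · intro i' k'
      exact ⟨a_mem _, comm_mem_R' hn i' j k'⟩
    · intro k
      refine ⟨b_mem _, ?_⟩
      rw [commutatorElement_eq_one_iff_mul_comm.mpr (b_comm _ _)]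
      exact one_mem _
  have hg : ∀ g ∈ G r n, G r n ≤ CC hn' g := by
    intro g hg
    apply G_le'
    · intro i k
      refine ⟨a_mem _, ?_⟩
      rw [← commutatorElement_inv]
      exact inv_mem (ha i k hg).2
    · intro j
      refine ⟨b_mem _, ?_⟩
      rw [← commutatorElement_inv]
      exact inv_mem (hb j hg).2
  unfold Der
  rw [Subgroup.commutator_le]
  intro g₁ h₁ g₂ h₂
  exact (hg g₂ h₂ h₁).2

/-- The commutator subgroup is branching. -/
theorem dd_mem (hn : 2 * r + 1 ≤ n) {g : Perm (List (V r n))} (hg : g ∈ Der r n) (x : V r n) :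
    dd x g ∈ Der r n :=
  (Der_le_R hn hg).2 x

/-! ### The abelianisation is finite -/

theorem abelian_form {g : Perm (List (V r n))} (hg : g ∈ G r n) :
    ∃ (v : V r n) (j : ZMod n), g⁻¹ * (a v * b j) ∈ Der r n := by
  obtain ⟨c, w, hw, rfl⟩ := hg
  clear hw
  induction w with
  | nil =>
    refine ⟨0, 0, ?_⟩
    rw [ev, a_zero, b_zero]
    simp
  | cons p w ih =>
    obtain ⟨v, j, h⟩ := ih
    refine ⟨p.1 + v, p.2 + j, ?_⟩
    have h1 : (ev (p :: w))⁻¹ * (a (p.1 + v) * b (p.2 + j)) =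
        ((ev w)⁻¹ * ⁅(b p.2 : Perm (List (V r n)))⁻¹, a v⁆ * (ev w)⁻¹⁻¹) * ((ev w)⁻¹ * (a v * b j)) := by
      rw [ev, a_add, b_add]
      simp only [commutatorElement_def]
      group
    rw [h1]
    exact mul_mem (Der_conj (inv_mem (ev_mem w)) (Der_comm (inv_mem (b_mem _)) (a_mem _))) h

/-! ### Separation by finitely many values -/

/-- Finitely many values separate the cosets of `L` in `H`. -/
def FinSep (H L : Subgroup (Perm (List (V r n)))) : Prop :=
  ∃ (T : Type) (_ : Finite T) (φ : Perm (List (V r n)) → T),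
    ∀ g ∈ H, ∀ h ∈ H, φ g = φ h → g⁻¹ * h ∈ L

theorem finSep_Der [NeZero n] : FinSep (G r n) (Der r n) := by
  have h1 : ∀ g : Perm (List (V r n)), ∃ p : V r n × ZMod n, g ∈ G r n →
      g⁻¹ * (a p.1 * b p.2) ∈ Der r n := by
    intro g
    by_cases hg : g ∈ G r n
    · obtain ⟨v, j, h⟩ := abelian_form hg
      exact ⟨(v, j), fun _ => h⟩
    · exact ⟨(0, 0), fun h => absurd h hg⟩
  choose φ hφ using h1
  refine ⟨V r n × ZMod n, inferInstance, φ, fun g hg h hh heq => ?_⟩
  have h2 := hφ g hg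
  have h3 := hφ h hh
  rw [heq] at h2
  have h4 : g⁻¹ * h = (g⁻¹ * (a (φ h).1 * b (φ h).2)) * (h⁻¹ * (a (φ h).1 * b (φ h).2))⁻¹ := by
    group
  rw [h4]
  exact mul_mem h2 (inv_mem h3)

/-- The automorphisms fixing the first level with all sections in `L`. -/
def up (L : Subgroup (Perm (List (V r n)))) : Subgroup (Perm (List (V r n))) where
  carrier := {g | ∃ f, g = node 0 f ∧ ∀ x, f x ∈ L}
  mul_mem' := by
    rintro _ _ ⟨f, rfl, hf⟩ ⟨f', rfl, hf'⟩
    exact ⟨_, node_zero_mul _ _, fun x => mul_mem (hf x) (hf' x)⟩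
  one_mem' := ⟨fun _ => 1, node_one.symm, fun _ => one_mem _⟩
  inv_mem' := by
    rintro _ ⟨f, rfl, hf⟩
    exact ⟨_, node_zero_inv _, fun x => inv_mem (hf x)⟩

theorem FinSep.up [NeZero n] (hr : 0 < r) (hn : r < n) {L : Subgroup (Perm (List (V r n)))}
    (h : FinSep (G r n) L) : FinSep (G r n) (up L) := by
  obtain ⟨T, hT, φ, hφ⟩ := h
  have h1 : ∀ g : Perm (List (V r n)), ∃ (s : V r n) (f : V r n → Perm (List (V r n))),
      g ∈ G r n → (g = node s f ∧ ∀ x, f x ∈ G r n) := by
    intro g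
    by_cases hg : g ∈ G r n
    · obtain ⟨s, f, hf⟩ := G_node hr hn hg
      exact ⟨s, f, fun _ => hf⟩
    · exact ⟨0, fun _ => 1, fun h => absurd h hg⟩
  choose s f hsf using h1
  refine ⟨V r n × (V r n → T), inferInstance, fun g => (s g, fun x => φ (f g x)),
    fun g hg h hh heq => ?_⟩
  rw [Prod.mk.injEq] at heq
  obtain ⟨hs, hx⟩ := heq
  obtain ⟨hg1, hg2⟩ := hsf g hg
  obtain ⟨hh1, hh2⟩ := hsf h hh
  refine ⟨fun x => (f g x)⁻¹ * f h x, ?_, fun x => hφ _ (hg2 x) _ (hh2 x) (congrFun hx x)⟩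
  have h2 : g⁻¹ * h = (node (s g) (f g))⁻¹ * node (s h) (f h) := by rw [← hg1, ← hh1]
  rw [h2, hs, node_inv, node_mul]
  congr 1
  · simp
  · funext x
    simp

/-- The iterated branching subgroups. -/
def Lv (r n : ℕ) : ℕ → Subgroup (Perm (List (V r n)))
  | 0 => Der r n
  | l + 1 => up (Lv r n l)

theorem finSep_Lv [NeZero n] (hr : 0 < r) (hn : r < n) : ∀ l, FinSep (G r n) (Lv r n l)
  | 0 => finSep_Der
  | l + 1 => (finSep_Lv hr hn l).up hr hn

theorem FinSep.finiteIndex {H L : Subgroup (Perm (List (V r n)))} (h : FinSep H L) :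
    (L.subgroupOf H).FiniteIndex := by
  obtain ⟨T, hT, φ, hφ⟩ := h
  have h1 : Function.Injective (fun q : H ⧸ L.subgroupOf H => φ (q.out : H)) := by
    intro q q' hq
    rw [← QuotientGroup.out_eq' q, ← QuotientGroup.out_eq' q', QuotientGroup.eq]
    rw [Subgroup.mem_subgroupOf]
    exact hφ _ (Subtype.prop _) _ (Subtype.prop _) hq
  have h2 : Finite (H ⧸ L.subgroupOf H) := Finite.of_injective _ h1
  exact Subgroup.finiteIndex_of_finite_quotient

/-! ### Vertices of deeper levels -/

/-- The element acting as `g` below the vertex `v`. -/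
def dl : List (V r n) → Perm (List (V r n)) → Perm (List (V r n))
  | [], g => g
  | x :: v, g => dd x (dl v g)

theorem dl_fix (g : Perm (List (V r n))) : ∀ v u : List (V r n), ¬ v <+: u → dl v g u = u
  | [], u, h => absurd List.nil_prefix h
  | x :: v, [], h => rfl
  | x :: v, y :: u, h => by
    rw [dl, dd, node_cons, add_zero]
    by_cases hy : y = x
    · subst hy
      rw [if_pos rfl, dl_fix g v u]
      intro h'
      exact h (List.cons_prefix_cons.mpr ⟨rfl, h'⟩)
    · rw [if_neg hy, Perm.one_apply]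

theorem dl_mem (hn : 2 * r + 1 ≤ n) {g : Perm (List (V r n))} (hg : g ∈ Der r n) :
    ∀ v : List (V r n), dl v g ∈ Der r n
  | [] => hg
  | x :: v => dd_mem hn (dl_mem hn hg v) x

/-- The group generated by the copies of the commutator subgroup at the level `l`. -/
def Cl (r n : ℕ) (l : ℕ) : Subgroup (Perm (List (V r n))) :=
  Subgroup.closure {h | ∃ v g, v.length = l ∧ g ∈ Der r n ∧ h = dl v g}

theorem dd_Cl {l : ℕ} (x : V r n) {g : Perm (List (V r n))} (hg : g ∈ Cl r n l) :
    dd x g ∈ Cl r n (l + 1) := by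
  refine Subgroup.closure_induction (p := fun g _ => dd x g ∈ Cl r n (l + 1)) ?_ ?_ ?_ ?_ hg
  · rintro _ ⟨v, g, hv, hg, rfl⟩
    exact Subgroup.subset_closure ⟨x :: v, g, by rw [List.length_cons, hv], hg, rfl⟩
  · rw [dd_one]
    exact one_mem _
  · intro g h _ _ hg hh
    rw [dd_mul]
    exact mul_mem hg hh
  · intro g _ hg
    rw [dd_inv]
    exact inv_mem hg

theorem Lv_le_Cl [NeZero n] : ∀ l, Lv r n l ≤ Cl r n l
  | 0 => fun g hg => Subgroup.subset_closure ⟨[], g, rfl, hg, rfl⟩
  | l + 1 => by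
    rintro _ ⟨f, rfl, hf⟩
    have h1 : ∀ S : Finset (V r n),
        node 0 (fun x => if x ∈ S then f x else 1) ∈ Cl r n (l + 1) := by
      intro S
      induction S using Finset.induction_on with
      | empty =>
        simp only [Finset.notMem_empty, if_false]
        rw [node_one]
        exact one_mem _
      | insert x S hx ih =>
        have h2 : node 0 (fun y => if y ∈ insert x S then f y else 1) =
            dd x (f x) * node 0 (fun y => if y ∈ S then f y else 1) := by
          unfold dd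
          rw [node_zero_mul]
          congr 1
          funext y
          by_cases hy : y = x
          · subst hy
            simp [hx]
          · simp [hy]
        rw [h2]
        exact mul_mem (dd_Cl x (Lv_le_Cl l (hf x))) ih
    have h3 := h1 Finset.univ
    simpa using h3

theorem Cl_le_ristLevel (hn : 2 * r + 1 ≤ n) (l : ℕ) : Cl r n l ≤ ristLevel (G r n) l := by
  unfold Cl
  rw [Subgroup.closure_le]
  rintro _ ⟨v, g, hv, hg, rfl⟩
  exact Subgroup.subset_closure ⟨v, hv, Der_le (dl_mem hn hg v), fun u hu => dl_fix g v u hu⟩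

theorem isBranch [NeZero n] (hr : 0 < r) (hn : 2 * r + 1 ≤ n) : IsBranch (G r n) where
  tree _ hg := isTreeAut_G hg
  transitive := transitive (by omega)
  rigid l := by
    have h1 : ((Lv r n l).subgroupOf (G r n)).FiniteIndex :=
      (finSep_Lv hr (by omega) l).finiteIndex
    have h2 : (Lv r n l).subgroupOf (G r n) ≤ (ristLevel (G r n) l).subgroupOf (G r n) :=
      Subgroup.comap_mono ((Lv_le_Cl l).trans (Cl_le_ristLevel hn l))
    exact Subgroup.finiteIndex_of_le h2

end Q30.EB
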