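import Pool.Agent.Q30.EB.Base

/-!
# The cost of a word and the contraction of sections

The cost of a product of translations and directed automorphisms is the total number of nonzero
coordinates of its translations.  Passing to a section divides the cost by `r`, up to one unit.
-/

namespace Q30.EB

open Equiv
open scoped commutatorElement

variable {r n : ℕ}

/-- The number of nonzero coordinates. -/
def nm (v : V r n) : ℕ := (Finset.univ.filter (fun i => v i ≠ 0)).card

theorem nm_zero : nm (0 : V r n) = 0 := by simp [nm]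

theorem nm_neg (v : V r n) : nm (-v) = nm v := by simp [nm]

theorem nm_add (v w : V r n) : nm (v + w) ≤ nm v + nm w := by
  unfold nm
  refine le_trans (Finset.card_le_card ?_) (Finset.card_union_le _ _)
  intro i hi
  simp only [Finset.mem_filter, Finset.mem_univ, true_and, Finset.mem_union] at hi ⊢
  by_contra hc
  push Not at hc
  apply hi
  rw [Pi.add_apply, hc.1, hc.2, add_zero]

theorem D_inj (hn : r < n) {i i' : Fin r} (h : D r n i = D r n i') : i = i' := by
  have h1 := congrFun h i
  unfold D at h1
  rw [ZMod.natCast_eq_natCast_iff', Nat.mod_eq_of_lt (by omega), Nat.mod_eq_of_lt (by omega)] at h1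
  exact Fin.ext (by omega)

theorem nm_ins (hn : r < n) (j : ZMod n) (x : V r n) : nm (ins j x) ≤ 1 := by
  unfold nm
  rw [Finset.card_le_one]
  intro i hi i' hi'
  simp only [Finset.mem_filter, Finset.mem_univ, true_and, ins, ne_eq, ite_eq_right_iff,
    Classical.not_imp] at hi hi'
  exact D_inj hn (hi.1.symm.trans hi'.1)

theorem nm_code {q q' : V r n} (hq : Code q) (hq' : Code q') (hne : q ≠ q') :
    nm (q - q') = r := by
  obtain ⟨k, _, rfl⟩ := hq
  obtain ⟨k', _, rfl⟩ := hq'
  unfold nm
  rw [Finset.filter_true_of_mem, Finset.card_univ, Fintype.card_fin]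
  intro i _ h0
  apply hne
  funext i'
  exact sub_eq_zero.mp h0

/-- The value of a word. -/
def ev : List (V r n × ZMod n) → Perm (List (V r n))
  | [] => 1
  | p :: w => a p.1 * b p.2 * ev w

/-- The cost of a word. -/
def cost : List (V r n × ZMod n) → ℕ
  | [] => 0
  | p :: w => nm p.1 + cost w

/-- The total translation of a word. -/
def tot : List (V r n × ZMod n) → V r n
  | [] => 0
  | p :: w => p.1 + tot w

theorem ev_append (w w' : List (V r n × ZMod n)) : ev (w ++ w') = ev w * ev w' := by
  induction w with
  | nil => simp [ev]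
  | cons p w ih => simp [ev, ih, mul_assoc]

theorem cost_append (w w' : List (V r n × ZMod n)) : cost (w ++ w') = cost w + cost w' := by
  induction w with
  | nil => simp [cost]
  | cons p w ih => simp [cost, ih, add_assoc]

/-- The element `g` is the value of a word of cost at most `c`. -/
def Rep (c : ℕ) (g : Perm (List (V r n))) : Prop := ∃ w, cost w ≤ c ∧ ev w = g

theorem Rep.mono {c c' : ℕ} {g : Perm (List (V r n))} (h : Rep c g) (hc : c ≤ c') :
    Rep c' g := by
  obtain ⟨w, hw, rfl⟩ := h
  exact ⟨w, hw.trans hc, rfl⟩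

theorem Rep.mul {c c' : ℕ} {g g' : Perm (List (V r n))} (h : Rep c g) (h' : Rep c' g') :
    Rep (c + c') (g * g') := by
  obtain ⟨w, hw, rfl⟩ := h
  obtain ⟨w', hw', rfl⟩ := h'
  exact ⟨w ++ w', by rw [cost_append]; omega, ev_append _ _⟩

theorem Rep.one : Rep 0 (1 : Perm (List (V r n))) := ⟨[], le_refl _, rfl⟩

theorem Rep_a (v : V r n) : Rep (nm v) (a v) :=
  ⟨[(v, 0)], by simp [cost], by simp [ev, b_zero]⟩

theorem Rep_b (j : ZMod n) : Rep 0 (b j : Perm (List (V r n))) :=
  ⟨[(0, j)], by simp [cost, nm_zero], by simp [ev, a_zero]⟩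

theorem Rep_inv_ev (w : List (V r n × ZMod n)) : Rep (cost w) (ev w)⁻¹ := by
  induction w with
  | nil => simpa [ev, cost] using Rep.one
  | cons p w ih =>
    have h1 : (ev (p :: w))⁻¹ = (ev w)⁻¹ * (b (-p.2) * a (-p.1)) := by
      rw [ev, b_neg, a_neg]
      group
    rw [h1, cost]
    refine (ih.mul ((Rep_b (-p.2)).mul (Rep_a (-p.1)))).mono ?_
    rw [nm_neg]
    omega

theorem Rep.inv {c : ℕ} {g : Perm (List (V r n))} (h : Rep c g) : Rep c g⁻¹ := by
  obtain ⟨w, hw, rfl⟩ := h
  exact (Rep_inv_ev w).mono hw

theorem Rep_B (hn : r < n) (k : ZMod n) (q : V r n) : Rep 1 (B k q) := by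
  by_cases h : q = 0
  · subst h
    rw [B_zero']
    exact (Rep_b k).mono (Nat.zero_le _)
  · rw [B_ne _ h]
    exact (Rep_a _).mono (nm_ins hn k q)

theorem ev_cons_node (v : V r n) (j : ZMod n) (s : V r n) (f : V r n → Perm (List (V r n))) :
    a v * b j * node s f = node (v + s) (fun x => B j (x + s) * f x) := by
  rw [mul_assoc, b_eq, node_mul, a_mul_node]
  congr 1
  rw [add_zero, add_comm]

/-- The sections of a word. -/
theorem sections (hn : r < n) (w : List (V r n × ZMod n)) :
    ∃ f, ev w = node (tot w) f ∧ ∀ x, f x = 1 ∨ ∃ (q : V r n) (k : ZMod n) (c : ℕ)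
      (h : Perm (List (V r n))), Code q ∧ f x = B k q * h ∧ Rep c h ∧
        r * c + nm (x + tot w - q) ≤ cost w := by
  induction w with
  | nil => exact ⟨fun _ => 1, by simp [ev, tot, node_one], fun x => Or.inl rfl⟩
  | cons p w ih =>
    obtain ⟨v, j⟩ := p
    obtain ⟨f, hf, hx⟩ := ih
    refine ⟨fun x => B j (x + tot w) * f x, ?_, ?_⟩
    · rw [ev, hf, ev_cons_node, tot]
    · intro x
      have hpos : ∀ q : V r n, x + tot ((v, j) :: w) - q = v + (x + tot w - q) := by
        intro q
        rw [tot]
        abel
      have htri : ∀ q : V r n, nm (x + tot ((v, j) :: w) - q) ≤ nm v + nm (x + tot w - q) := by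
        intro q
        rw [hpos]
        exact nm_add _ _
      have hcost : cost ((v, j) :: w) = nm v + cost w := rfl
      rcases hx x with h1 | ⟨q, k, c, h, hq, hfx, hR, hc⟩
      · by_cases hp : Code (x + tot w)
        · right
          refine ⟨x + tot w, j, 0, 1, hp, by simp only [h1], Rep.one, ?_⟩
          have := htri (x + tot w)
          rw [sub_self, nm_zero] at this
          omega
        · left
          simp only [h1, B_of_not_code j hp, one_mul]
      · right
        by_cases hp : Code (x + tot w)
        · by_cases he : x + tot w = q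
          · refine ⟨q, j + k, c, h, hq, ?_, hR, ?_⟩
            · simp only [hfx, he, B_add, mul_assoc]
            · have := htri q
              omega
          · refine ⟨x + tot w, j, c + 1, B k q * h, hp, by simp only [hfx], ?_, ?_⟩
            · rw [add_comm]
              exact (Rep_B hn k q).mul hR
            · have := htri (x + tot w)
              rw [sub_self, nm_zero] at this
              rw [nm_code hp hq he] at hc
              rw [mul_add, mul_one]
              omega
        · refine ⟨q, k, c, h, hq, ?_, hR, ?_⟩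
          · simp only [hfx, B_of_not_code j hp, one_mul]
          · have := htri q
            omega

/-- The contraction. -/
theorem contraction (hr : 0 < r) (hn : r < n) {c : ℕ} {g : Perm (List (V r n))} (h : Rep c g) :
    ∃ s f, g = node s f ∧ ∀ x, Rep (c / r + 1) (f x) := by
  obtain ⟨w, hw, rfl⟩ := h
  obtain ⟨f, hf, hx⟩ := sections hn w
  refine ⟨tot w, f, hf, fun x => ?_⟩
  rcases hx x with h1 | ⟨q, k, c', h, hq, hfx, hR, hc⟩
  · rw [h1]
    exact Rep.one.mono (Nat.zero_le _)
  · rw [hfx, add_comm]
    refine ((Rep_B hn k q).mul hR).mono (Nat.add_le_add_left ?_ 1)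
    rw [Nat.le_div_iff_mul_le hr, mul_comm]
    omega

end Q30.EB
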