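import Mathlib

/-!
# Branch groups and Engel type iterated identities
-/

namespace Q30.EB

open Equiv

section Branch

variable {X : Type}

/-- The permutation `g` of the finite words over `X` is an automorphism of the rooted tree of
words. -/
def IsTreeAut (g : Perm (List X)) : Prop :=
  (∀ u, (g u).length = u.length) ∧ ∀ u v, u <+: v → g u <+: g v

/-- The rigid stabiliser of the vertex `v`. -/
def rist (G : Subgroup (Perm (List X))) (v : List X) : Subgroup (Perm (List X)) where
  carrier := {g | g ∈ G ∧ ∀ u, ¬ v <+: u → g u = u}
  mul_mem' := by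
    rintro g h ⟨hg, hg'⟩ ⟨hh, hh'⟩
    refine ⟨mul_mem hg hh, fun u hu => ?_⟩
    rw [Perm.mul_apply, hh' u hu, hg' u hu]
  one_mem' := ⟨one_mem _, fun u _ => rfl⟩
  inv_mem' := by
    rintro g ⟨hg, hg'⟩
    refine ⟨inv_mem hg, fun u hu => ?_⟩
    rw [Perm.inv_eq_iff_eq, hg' u hu]

/-- The rigid stabiliser of the level `l`. -/
def ristLevel (G : Subgroup (Perm (List X))) (l : ℕ) : Subgroup (Perm (List X)) :=
  Subgroup.closure {g | ∃ v : List X, v.length = l ∧ g ∈ rist G v}

/-- The group `G` of automorphisms of the rooted tree of words over `X` is a branch group. -/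
structure IsBranch (G : Subgroup (Perm (List X))) : Prop where
  /-- The elements are tree automorphisms. -/
  tree : ∀ g ∈ G, IsTreeAut g
  /-- The action on each level is transitive. -/
  transitive : ∀ u v : List X, u.length = v.length → ∃ g ∈ G, g u = v
  /-- The rigid level stabilisers have finite index. -/
  rigid : ∀ l, ((ristLevel G l).subgroupOf G).FiniteIndex

end Branch

section Words

variable {N : ℕ}

/-- The iterated words: `e 0` is the first letter and `e (k + 1)` is `w` with the first letter
replaced by `e k`. -/
def engelWord (w : FreeGroup (Fin (N + 1))) : ℕ → FreeGroup (Fin (N + 1))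
  | 0 => FreeGroup.of 0
  | k + 1 => FreeGroup.lift (Function.update FreeGroup.of 0 (engelWord w k)) w

/-- The group `G` satisfies the Engel type iterated identity `w`. -/
def SatisfiesEngel (w : FreeGroup (Fin (N + 1))) (G : Type) [Group G] : Prop :=
  ∀ x : Fin (N + 1) → G, ∃ m, FreeGroup.lift x (engelWord w m) = 1

/-- Evaluation of the iterated words. -/
theorem lift_engelWord_succ (w : FreeGroup (Fin (N + 1))) {G : Type} [Group G]
    (x : Fin (N + 1) → G) (k : ℕ) :
    FreeGroup.lift x (engelWord w (k + 1)) =
      FreeGroup.lift (Function.update x 0 (FreeGroup.lift x (engelWord w k))) w := by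
  rw [engelWord, ← MonoidHom.comp_apply]
  congr 1
  ext i
  simp only [MonoidHom.comp_apply, FreeGroup.lift_apply_of]
  by_cases hi : i = 0
  · subst hi
    simp
  · simp [hi]

end Words

end Q30.EB
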