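import Pool.Agent.Q30.EB.Iter
import Pool.Agent.Q30.EB.Defs

/-!
# The group and its basic properties
-/

namespace Q30.EB

open Equiv
open scoped commutatorElement

variable {r n : ℕ}

/-- The group generated by the translations and the directed automorphisms. -/
def G (r n : ℕ) : Subgroup (Perm (List (V r n))) where
  carrier := {g | ∃ c, Rep c g}
  mul_mem' := by
    rintro g h ⟨c, hc⟩ ⟨c', hc'⟩
    exact ⟨c + c', hc.mul hc'⟩
  one_mem' := ⟨0, Rep.one⟩
  inv_mem' := by
    rintro g ⟨c, hc⟩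
    exact ⟨c, hc.inv⟩

theorem mem_G {g : Perm (List (V r n))} : g ∈ G r n ↔ ∃ c, Rep c g := Iff.rfl

theorem a_mem (v : V r n) : a v ∈ G r n := ⟨_, Rep_a v⟩

theorem b_mem (j : ZMod n) : b j ∈ G r n := ⟨_, Rep_b j⟩

theorem ev_mem (w : List (V r n × ZMod n)) : ev w ∈ G r n := ⟨cost w, w, le_refl _, rfl⟩

theorem G_le (H : Subgroup (Perm (List (V r n)))) (ha : ∀ v, a v ∈ H) (hb : ∀ j, b j ∈ H) :
    G r n ≤ H := by
  rintro g ⟨c, w, hw, rfl⟩
  clear hw
  induction w with
  | nil => exact one_mem _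
  | cons p w ih => exact mul_mem (mul_mem (ha _) (hb _)) ih

theorem a_sum_mem (H : Subgroup (Perm (List (V r n))))
    (ha : ∀ (i : Fin r) (k : ZMod n), a (Pi.single i k) ∈ H) (v : V r n) : a v ∈ H := by
  have h1 : ∀ s : Finset (Fin r), a (∑ i ∈ s, Pi.single i (v i)) ∈ H := by
    intro s
    induction s using Finset.induction_on with
    | empty =>
      rw [Finset.sum_empty, a_zero]
      exact one_mem _
    | insert i s hi ih =>
      rw [Finset.sum_insert hi, a_add]
      exact mul_mem (ha _ _) ih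
  have h2 := h1 Finset.univ
  rwa [Finset.univ_sum_single] at h2

theorem G_le' (H : Subgroup (Perm (List (V r n))))
    (ha : ∀ (i : Fin r) (k : ZMod n), a (Pi.single i k) ∈ H) (hb : ∀ j, b j ∈ H) :
    G r n ≤ H :=
  G_le H (a_sum_mem H ha) hb

theorem G_eq_closure : Subgroup.closure (Set.range a ∪ Set.range b) = G r n := by
  apply le_antisymm
  · rw [Subgroup.closure_le]
    rintro g (⟨v, rfl⟩ | ⟨j, rfl⟩)
    · exact a_mem v
    · exact b_mem j
  · exact G_le _ (fun v => Subgroup.subset_closure (Or.inl ⟨v, rfl⟩))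
      (fun j => Subgroup.subset_closure (Or.inr ⟨j, rfl⟩))

theorem G_fg [NeZero n] : (G r n).FG := by
  rw [Subgroup.fg_iff]
  exact ⟨_, G_eq_closure, (Set.finite_range _).union (Set.finite_range _)⟩

theorem G_node (hr : 0 < r) (hn : r < n) {g : Perm (List (V r n))} (hg : g ∈ G r n) :
    ∃ s f, g = node s f ∧ ∀ x, f x ∈ G r n := by
  obtain ⟨c, hc⟩ := hg
  obtain ⟨s, f, hf, hx⟩ := contraction hr hn hc
  exact ⟨s, f, hf, fun x => ⟨_, hx x⟩⟩

/-! ### Tree automorphisms -/

theorem isTreeAut_one : IsTreeAut (1 : Perm (List (V r n))) := ⟨fun _ => rfl, fun _ _ h => h⟩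

theorem isTreeAut_mul {g h : Perm (List (V r n))} (hg : IsTreeAut g) (hh : IsTreeAut h) :
    IsTreeAut (g * h) :=
  ⟨fun u => by rw [Perm.mul_apply, hg.1, hh.1], fun u v huv => hg.2 _ _ (hh.2 _ _ huv)⟩

theorem isTreeAut_node (s : V r n) (f : V r n → Perm (List (V r n)))
    (hf : ∀ x, IsTreeAut (f x)) : IsTreeAut (node s f) := by
  refine ⟨?_, ?_⟩
  · rintro (_ | ⟨x, u⟩)
    · rfl
    · rw [node_cons, List.length_cons, List.length_cons, (hf x).1]
  · rintro (_ | ⟨x, u⟩) v huv
    · exact List.nil_prefix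
    · rcases v with _ | ⟨y, v⟩
      · simp at huv
      · rw [List.cons_prefix_cons] at huv
        obtain ⟨rfl, huv⟩ := huv
        rw [node_cons, node_cons, List.cons_prefix_cons]
        exact ⟨rfl, (hf x).2 _ _ huv⟩

theorem isTreeAut_a (v : V r n) : IsTreeAut (a v) := isTreeAut_node _ _ (fun _ => isTreeAut_one)

theorem bf_length (j : ZMod n) : ∀ u : List (V r n), (bf j u).length = u.length
  | [] => rfl
  | x :: u => by
    rw [bf, List.length_cons, List.length_cons]
    by_cases h : x = 0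
    · simp only [h, if_true]
      rw [bf_length j u]
    · simp only [h, if_false]
      rw [(isTreeAut_a _).1]

theorem bf_prefix (j : ZMod n) : ∀ u v : List (V r n), u <+: v → bf j u <+: bf j v
  | [], v, _ => List.nil_prefix
  | x :: u, [], h => by simp at h
  | x :: u, y :: v, h => by
    rw [List.cons_prefix_cons] at h
    obtain ⟨rfl, h⟩ := h
    rw [bf, bf, List.cons_prefix_cons]
    refine ⟨rfl, ?_⟩
    by_cases hx : x = 0
    · simp only [hx, if_true]
      exact bf_prefix j u v h
    · simp only [hx, if_false]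
      exact (isTreeAut_a _).2 _ _ h

theorem isTreeAut_b (j : ZMod n) : IsTreeAut (b j : Perm (List (V r n))) :=
  ⟨bf_length j, bf_prefix j⟩

theorem isTreeAut_G {g : Perm (List (V r n))} (hg : g ∈ G r n) : IsTreeAut g := by
  obtain ⟨c, w, hw, rfl⟩ := hg
  clear hw
  induction w with
  | nil => exact isTreeAut_one
  | cons p w ih => exact isTreeAut_mul (isTreeAut_mul (isTreeAut_a _) (isTreeAut_b _)) ih

/-! ### Fractalness -/

/-- The sections at `y` of the elements of the first level stabiliser. -/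
def Sec (y : V r n) : Subgroup (Perm (List (V r n))) where
  carrier := {g | ∃ f, node 0 f ∈ G r n ∧ f y = g}
  mul_mem' := by
    rintro _ _ ⟨f, hf, rfl⟩ ⟨f', hf', rfl⟩
    refine ⟨fun x => f x * f' x, ?_, rfl⟩
    rw [← node_zero_mul]
    exact mul_mem hf hf'
  one_mem' := ⟨fun _ => 1, by rw [node_one]; exact one_mem _, rfl⟩
  inv_mem' := by
    rintro _ ⟨f, hf, rfl⟩
    refine ⟨fun x => (f x)⁻¹, ?_, rfl⟩
    rw [← node_zero_inv]
    exact inv_mem hf

theorem D_ne (hn : r < n) (i : Fin r) : D r n i ≠ 0 := by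
  intro h
  have h1 := congrFun h i
  unfold D at h1
  rw [Pi.zero_apply, ZMod.natCast_eq_zero_iff] at h1
  have := Nat.le_of_dvd (by omega) h1
  omega

theorem B_D (hn : r < n) (i : Fin r) (k : ZMod n) :
    (B k (D r n i) : Perm (List (V r n))) = a (Pi.single i k) := by
  rw [B_ne _ (D_ne hn i)]
  congr 1
  funext i'
  unfold ins
  by_cases h : i' = i
  · subst h
    simp
  · rw [if_neg (fun h' => h (D_inj hn h').symm), Pi.single_eq_of_ne h]

/-- The conjugate of `b j` by the translation by `v`. -/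
theorem conj_b_mem (v : V r n) (j : ZMod n) : node 0 (fun x => B j (x - v)) ∈ G r n := by
  rw [← conj_b]
  exact mul_mem (mul_mem (a_mem _) (b_mem _)) (a_mem _)

theorem G_le_Sec (hn : r < n) (y : V r n) : G r n ≤ Sec y := by
  apply G_le'
  · intro i k
    refine ⟨_, conj_b_mem (y - D r n i) k, ?_⟩
    rw [sub_sub_cancel, B_D hn]
  · intro j
    refine ⟨_, conj_b_mem y j, ?_⟩
    rw [sub_self, B_zero']

theorem transitive (hn : r < n) : ∀ u v : List (V r n), u.length = v.length →
    ∃ g ∈ G r n, g u = v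
  | [], [], _ => ⟨1, one_mem _, rfl⟩
  | [], y :: v, h => by simp at h
  | x :: u, [], h => by simp at h
  | x :: u, y :: v, h => by
    have h' : u.length = v.length := by simpa using h
    obtain ⟨g, hg, hguv⟩ := transitive hn u v h'
    obtain ⟨f, hf, rfl⟩ := G_le_Sec hn x hg
    refine ⟨a (y - x) * node 0 f, mul_mem (a_mem _) hf, ?_⟩
    rw [a_mul_node, node_cons, hguv]
    simp

end Q30.EB
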