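import Pool.Agent.Q30.EB.Cost

/-!
# The iteration dies out

The step sends a family `g` to the family of commutators of `g u` with the conjugate by `Z u` of
`g (ρ u)`.  After finitely many steps every family of bounded cost becomes trivial.
-/

namespace Q30.EB

open Equiv
open scoped commutatorElement

variable {r n : ℕ}

/-- The iteration step. -/
def stepF {U : Type} (ρ : U → U) (Z g : U → Perm (List (V r n))) : U → Perm (List (V r n)) :=
  fun u => ⁅g u, Z u * g (ρ u) * (Z u)⁻¹⁆

/-- The group generated by the conjugates of the directed automorphisms by short translations. -/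
def K (c : ℕ) : Subgroup (Perm (List (V r n))) :=
  Subgroup.closure {g | ∃ (v : V r n) (j : ZMod n), nm v ≤ c ∧ g = a v * b j * a (-v)}

theorem K_mono {c c' : ℕ} (h : c ≤ c') : (K c : Subgroup (Perm (List (V r n)))) ≤ K c' := by
  apply Subgroup.closure_mono
  rintro g ⟨v, j, hv, rfl⟩
  exact ⟨v, j, hv.trans h, rfl⟩

theorem K_conj {c : ℕ} (v : V r n) {g : Perm (List (V r n))} (hg : g ∈ K c) :
    a v * g * a (-v) ∈ (K (nm v + c) : Subgroup (Perm (List (V r n)))) := by
  refine Subgroup.closure_induction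
    (p := fun g _ => a v * g * a (-v) ∈ (K (nm v + c) : Subgroup (Perm (List (V r n)))))
    ?_ ?_ ?_ ?_ hg
  · rintro _ ⟨u, j, hu, rfl⟩
    apply Subgroup.subset_closure
    refine ⟨v + u, j, (nm_add _ _).trans (by omega), ?_⟩
    rw [neg_add_rev, a_add, a_add]
    simp only [mul_assoc]
  · rw [mul_one, a_neg, mul_inv_cancel]
    exact one_mem _
  · intro x y _ _ hx hy
    have h1 : a v * (x * y) * a (-v) = a v * x * a (-v) * (a v * y * a (-v)) := by
      rw [a_neg]
      group
    rw [h1]
    exact mul_mem hx hy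
  · intro x _ hx
    have h1 : a v * x⁻¹ * a (-v) = (a v * x * a (-v))⁻¹ := by
      rw [a_neg]
      group
    rw [h1]
    exact inv_mem hx

theorem B_comm_of_close {c c' : ℕ} (h : c + c' < r) {v v' : V r n} (hv : nm v ≤ c)
    (hv' : nm v' ≤ c') (j j' : ZMod n) (x : V r n) :
    B j (x - v) * B j' (x - v') = B j' (x - v') * B j (x - v) := by
  by_cases h1 : Code (x - v)
  · by_cases h2 : Code (x - v')
    · by_cases h3 : x - v = x - v'
      · rw [h3, B_comm]
      · exfalso
        have h4 := nm_code h1 h2 h3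
        have h5 : x - v - (x - v') = v' + -v := by abel
        rw [h5] at h4
        have h6 := nm_add v' (-v)
        rw [nm_neg] at h6
        omega
    · rw [B_of_not_code j' h2, mul_one, one_mul]
  · rw [B_of_not_code j h1, mul_one, one_mul]

theorem K_comm {c c' : ℕ} (h : c + c' < r) {g g' : Perm (List (V r n))} (hg : g ∈ K c)
    (hg' : g' ∈ K c') : g * g' = g' * g := by
  have h1 : ∀ (v : V r n) (j : ZMod n), nm v ≤ c → ∀ x ∈ K c',
      Commute (a v * b j * a (-v)) x := by
    intro v j hv x hx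
    refine Subgroup.closure_induction
      (p := fun x _ => Commute (a v * b j * a (-v)) x) ?_ ?_ ?_ ?_ hx
    · rintro _ ⟨u, i, hu, rfl⟩
      rw [conj_b, conj_b]
      exact node_zero_comm _ _ (fun x => B_comm_of_close h hv hu j i x)
    · exact Commute.one_right _
    · intro x y _ _ hx hy
      exact hx.mul_right hy
    · intro x _ hx
      exact hx.inv_right
  refine Subgroup.closure_induction (p := fun g _ => Commute g g') ?_ ?_ ?_ ?_ hg
  · rintro _ ⟨v, j, hv, rfl⟩
    exact h1 v j hv g' hg'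
  · exact Commute.one_left _
  · intro x y _ _ hx hy
    exact hx.mul_left hy
  · intro x _ hx
    exact hx.inv_left

theorem ev_mem_K (w : List (V r n × ZMod n)) : ev w * a (-tot w) ∈ K (cost w) := by
  induction w with
  | nil =>
    rw [ev, tot, neg_zero, a_zero, mul_one]
    exact one_mem _
  | cons p w ih =>
    have h1 : ev (p :: w) * a (-tot (p :: w)) =
        (a p.1 * b p.2 * a (-p.1)) * (a p.1 * (ev w * a (-tot w)) * a (-p.1)) := by
      rw [ev, tot, neg_add_rev, a_add]
      have h2 : a (-p.1) * a p.1 = (1 : Perm (List (V r n))) := by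
        rw [← a_add, neg_add_cancel, a_zero]
      calc a p.1 * b p.2 * ev w * (a (-tot w) * a (-p.1))
          = a p.1 * b p.2 * 1 * ev w * a (-tot w) * a (-p.1) := by
            simp only [mul_one, mul_assoc]
        _ = _ := by
            rw [← h2]
            simp only [mul_assoc]
    rw [h1]
    refine mul_mem ?_ (K_conj p.1 ih)
    apply Subgroup.subset_closure
    exact ⟨p.1, p.2, by rw [cost]; omega, rfl⟩

theorem nm_tot (w : List (V r n × ZMod n)) : nm (tot w) ≤ cost w := by
  induction w with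
  | nil => simp [tot, cost, nm_zero]
  | cons p w ih =>
    rw [tot, cost]
    have := nm_add p.1 (tot w)
    omega

theorem Rep.mem_K (hn : r < n) {c : ℕ} {g : Perm (List (V r n))} (h : Rep c g)
    {f : V r n → Perm (List (V r n))} (hg : g = node 0 f) : g ∈ K c := by
  obtain ⟨w, hw, rfl⟩ := h
  obtain ⟨f', hf', _⟩ := sections hn w
  have h1 : tot w = 0 := (node_inj (hf'.symm.trans hg)).1
  have h2 := ev_mem_K w
  rw [h1, neg_zero, a_zero, mul_one] at h2
  exact K_mono hw h2

theorem Rep.split {c : ℕ} {g : Perm (List (V r n))} (h : Rep c g) :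
    ∃ k ∈ K c, ∃ s : V r n, nm s ≤ c ∧ g = k * a s := by
  obtain ⟨w, hw, rfl⟩ := h
  refine ⟨ev w * a (-tot w), K_mono hw (ev_mem_K w), tot w, (nm_tot w).trans hw, ?_⟩
  rw [mul_assoc, ← a_add, neg_add_cancel, a_zero, mul_one]

theorem comm_node (s t : V r n) (f g : V r n → Perm (List (V r n))) :
    ∃ k, ⁅node s f, node t g⁆ = node 0 k := by
  rw [commutatorElement_def, node_inv, node_inv, node_mul, node_mul, node_mul]
  exact ⟨_, congrArg (fun s => node s _) (by abel)⟩

theorem Rep_stepF {M : ℕ} {U : Type} (ρ : U → U) (Z g : U → Perm (List (V r n)))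
    (hg : ∀ u, Rep M (g u)) (hZ : ∀ u, Rep M (Z u)) (u : U) :
    Rep (8 * M) (stepF ρ Z g u) := by
  have h1 : Rep (3 * M) (Z u * g (ρ u) * (Z u)⁻¹) :=
    (((hZ u).mul (hg (ρ u))).mul (hZ u).inv).mono (by omega)
  unfold stepF
  rw [commutatorElement_def]
  exact ((((hg u).mul h1).mul (hg u).inv).mul h1.inv).mono (by omega)

theorem stepF_node (hr : 0 < r) (hn : r < n) {M : ℕ} {U : Type} (ρ : U → U)
    (Z g : U → Perm (List (V r n))) (hg : ∀ u, Rep M (g u)) (hZ : ∀ u, Rep M (Z u)) (u : U) :
    ∃ k, stepF ρ Z g u = node 0 k := by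
  obtain ⟨s, f, hf, _⟩ := contraction hr hn (hg u)
  obtain ⟨t, k, hk, _⟩ := contraction hr hn (((hZ u).mul (hg (ρ u))).mul (hZ u).inv)
  unfold stepF
  rw [hf, hk]
  exact comm_node _ _ _ _

theorem base_case (hr : 18 ≤ r) (hn : r < n) {U : Type} (ρ : U → U)
    (Z g : U → Perm (List (V r n))) (hg : ∀ u, Rep 1 (g u)) (hZ : ∀ u, Rep 1 (Z u)) :
    stepF ρ Z (stepF ρ Z g) = 1 := by
  have h8 : ∀ u, stepF ρ Z g u ∈ K 8 := by
    intro u
    obtain ⟨k, hk⟩ := stepF_node (by omega) hn ρ Z g hg hZ u
    exact (Rep_stepF ρ Z g hg hZ u).mem_K hn hk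
  funext u
  obtain ⟨k, hk, s, hs, hZu⟩ := (hZ u).split
  have h9 : Z u * stepF ρ Z g (ρ u) * (Z u)⁻¹ ∈ K 9 := by
    have h1 : Z u * stepF ρ Z g (ρ u) * (Z u)⁻¹ =
        k * (a s * stepF ρ Z g (ρ u) * a (-s)) * k⁻¹ := by
      rw [hZu, a_neg]
      group
    rw [h1]
    have hk9 : k ∈ (K 9 : Subgroup (Perm (List (V r n)))) := K_mono (by norm_num) hk
    exact mul_mem (mul_mem hk9 (K_mono (by omega) (K_conj s (h8 (ρ u))))) (inv_mem hk9)
  change ⁅stepF ρ Z g u, Z u * stepF ρ Z g (ρ u) * (Z u)⁻¹⁆ = 1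
  rw [commutatorElement_eq_one_iff_mul_comm]
  exact K_comm (by omega) (h8 u) h9

theorem stepF_sections {U : Type} (ρ : U → U) (Z : U → Perm (List (V r n)))
    (s : U → V r n) (h : U → V r n → Perm (List (V r n))) (hZ : ∀ u, Z u = node (s u) (h u))
    (G : U × V r n → Perm (List (V r n))) :
    stepF ρ Z (fun u => node 0 (fun x => G (u, x))) =
      fun u => node 0 (fun x => stepF (fun p : U × V r n => (ρ p.1, p.2 - s p.1))
        (fun p => h p.1 (p.2 - s p.1)) G (u, x)) := by
  funext u
  change ⁅node 0 (fun x => G (u, x)), Z u * node 0 (fun x => G (ρ u, x)) * (Z u)⁻¹⁆ = _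
  rw [hZ, conj_node, node_zero_commutator]
  rfl

theorem stepF_iterate_sections {U : Type} (ρ : U → U) (Z : U → Perm (List (V r n)))
    (s : U → V r n) (h : U → V r n → Perm (List (V r n))) (hZ : ∀ u, Z u = node (s u) (h u))
    (G : U × V r n → Perm (List (V r n))) (k : ℕ) :
    (stepF ρ Z)^[k] (fun u => node 0 (fun x => G (u, x))) =
      fun u => node 0 (fun x => (stepF (fun p : U × V r n => (ρ p.1, p.2 - s p.1))
        (fun p => h p.1 (p.2 - s p.1)))^[k] G (u, x)) := by
  induction k with
  | zero => rfl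
  | succ k ih =>
    rw [Function.iterate_succ_apply', ih, stepF_sections ρ Z s h hZ]
    simp only [Function.iterate_succ_apply']

/-- The iteration dies out. -/
theorem iterate_trivial (hr : 32 ≤ r) (hn : r < n) : ∀ (M : ℕ) (U : Type) (ρ : U → U)
    (Z g : U → Perm (List (V r n))), (∀ u, Rep M (g u)) → (∀ u, Rep M (Z u)) →
    ∃ m, (stepF ρ Z)^[m] g = 1 := by
  intro M
  induction M using Nat.strong_induction_on with
  | _ M ih =>
    intro U ρ Z g hg hZ
    by_cases hM : M ≤ 1
    · exact ⟨2, base_case (by omega) hn ρ Z g (fun u => (hg u).mono hM) (fun u => (hZ u).mono hM)⟩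
    · have h1 : ∀ u, ∃ f : V r n → Perm (List (V r n)), stepF ρ Z g u = node 0 f ∧
          ∀ x, Rep (M / 4 + 1) (f x) := by
        intro u
        obtain ⟨k, hk⟩ := stepF_node (by omega) hn ρ Z g hg hZ u
        obtain ⟨s, f, hf, hx⟩ := contraction (by omega) hn (Rep_stepF ρ Z g hg hZ u)
        obtain ⟨h2, h3⟩ := node_inj (hf.symm.trans hk)
        subst h2
        refine ⟨f, hf, fun x => (hx x).mono ?_⟩
        have h4 : 8 * M / r ≤ 8 * M / 32 := Nat.div_le_div_left hr (by norm_num)
        omega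
      choose f hf hfR using h1
      have h2 : ∀ u, ∃ (s : V r n) (h : V r n → Perm (List (V r n))), Z u = node s h ∧
          ∀ x, Rep (M / 4 + 1) (h x) := by
        intro u
        obtain ⟨s, h, hh, hx⟩ := contraction (by omega) hn (hZ u)
        refine ⟨s, h, hh, fun x => (hx x).mono ?_⟩
        have h4 : M / r ≤ M / 32 := Nat.div_le_div_left hr (by norm_num)
        omega
      choose s h hh hhR using h2
      obtain ⟨m, hm⟩ := ih (M / 4 + 1) (by omega) (U × V r n)
        (fun p => (ρ p.1, p.2 - s p.1)) (fun p => h p.1 (p.2 - s p.1)) (fun p => f p.1 p.2)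
        (fun p => hfR p.1 p.2) (fun p => hhR p.1 _)
      refine ⟨m + 1, ?_⟩
      have h3 : stepF ρ Z g = fun u => node 0 (fun x => (fun p : U × V r n => f p.1 p.2) (u, x)) :=
        funext hf
      rw [Function.iterate_succ_apply, h3,
        stepF_iterate_sections ρ Z s h hh (fun p : U × V r n => f p.1 p.2) m, hm]
      funext u
      exact node_one

end Q30.EB
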