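import Pool.Agent.Q30.EB.Br

/-!
# An element of infinite order, and the identity
-/

namespace Q30.EB

open Equiv
open scoped commutatorElement

variable {r n : ℕ}

/-- The element of infinite order. -/
def gg (r n : ℕ) : Perm (List (V r n)) := a (cst r n 1) * b 1

theorem gg_mem : gg r n ∈ G r n := mul_mem (a_mem _) (b_mem _)

theorem gg_pow (hr : 0 < r) (hn : r < n) : ∀ k : ℕ, 1 ≤ k → k ≤ n →
    ∃ f, gg r n ^ k = node (fun _ => (k : ZMod n)) f ∧
      f 0 = a (fun i : Fin r => if (i : ℕ) + 1 < k then (1 : ZMod n) else 0) * b 1 := by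
  intro k hk
  induction k, hk using Nat.le_induction with
  | base =>
    intro _
    refine ⟨B 1, ?_, ?_⟩
    · rw [pow_one, gg, b_eq, a_mul_node]
      congr 1
      funext i
      simp [cst]
    · rw [B_zero']
      have h1 : (fun i : Fin r => if (i : ℕ) + 1 < 1 then (1 : ZMod n) else 0) = 0 := by
        funext i
        simp
      rw [h1, a_zero, one_mul]
  | succ k hk ih =>
    intro hkn
    obtain ⟨f, hf, hf0⟩ := ih (by omega)
    refine ⟨fun x => B 1 (x + fun _ => (k : ZMod n)) * f x, ?_, ?_⟩
    · rw [pow_succ', hf, gg, ev_cons_node]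
      congr 1
      funext i
      simp only [cst, Pi.add_apply, Nat.cast_add, Nat.cast_one]
      rw [add_comm]
    · simp only [hf0]
      have h0 : (0 : V r n) + (fun _ => (k : ZMod n)) ≠ 0 := by
        intro h
        have h1 := congrFun h ⟨0, hr⟩
        rw [zero_add, Pi.zero_apply, ZMod.natCast_eq_zero_iff] at h1
        have := Nat.le_of_dvd (by omega) h1
        omega
      rw [B_ne _ h0, ← mul_assoc, ← a_add]
      congr 2
      funext i
      rw [Pi.add_apply, zero_add]
      unfold ins
      have h2 : ((fun _ => (k : ZMod n)) : V r n) = D r n i ↔ k = (i : ℕ) + 1 := by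
        constructor
        · intro h
          have h1 := congrFun h i
          unfold D at h1
          rw [ZMod.natCast_eq_natCast_iff', Nat.mod_eq_of_lt (by omega),
            Nat.mod_eq_of_lt (by omega)] at h1
          exact h1
        · intro h
          funext i'
          rw [h]
          rfl
      rw [if_congr h2 rfl rfl]
      by_cases h3 : k = (i : ℕ) + 1
      · rw [if_pos h3, if_neg (by omega), if_pos (by omega), add_zero]
      · rw [if_neg h3, zero_add]
        by_cases h4 : (i : ℕ) + 1 < k
        · rw [if_pos h4, if_pos (by omega)]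
        · rw [if_neg h4, if_neg (by omega)]

theorem gg_root (k : ℕ) : ∃ f, gg r n ^ k = node (fun _ => (k : ZMod n)) f := by
  induction k with
  | zero =>
    refine ⟨fun _ => 1, ?_⟩
    have h0 : (fun _ => ((0 : ℕ) : ZMod n) : V r n) = 0 := by
      funext i
      simp
    rw [pow_zero, h0, node_one]
  | succ k ih =>
    obtain ⟨f, hf⟩ := ih
    refine ⟨fun x => B 1 (x + fun _ => (k : ZMod n)) * f x, ?_⟩
    rw [pow_succ', hf, gg, ev_cons_node]
    congr 1
    funext i
    simp only [cst, Pi.add_apply, Nat.cast_add, Nat.cast_one]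
    rw [add_comm]

theorem gg_self (hr : 0 < r) (hn : r < n) :
    ∃ f, gg r n ^ n = node 0 f ∧ f 0 = gg r n := by
  obtain ⟨f, hf, hf0⟩ := gg_pow hr hn n (by omega) le_rfl
  refine ⟨f, ?_, ?_⟩
  · rw [hf]
    congr 1
    funext i
    simp
  · rw [hf0, gg]
    congr 2
    funext i
    rw [if_pos (by omega), cst]

/-- The element has infinite order. -/
theorem gg_infinite (hr : 0 < r) (hn : r < n) : ∀ N : ℕ, 0 < N → gg r n ^ N ≠ 1 := by
  intro N
  induction N using Nat.strong_induction_on with
  | _ N ih =>
    intro hN h1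
    obtain ⟨f, hf⟩ := gg_root (r := r) (n := n) N
    rw [h1, ← node_one] at hf
    have h2 := congrFun (node_inj hf).1 ⟨0, hr⟩
    rw [Pi.zero_apply, eq_comm, ZMod.natCast_eq_zero_iff] at h2
    obtain ⟨N', rfl⟩ := h2
    have hN' : 0 < N' := Nat.pos_of_ne_zero (by rintro rfl; simp at hN)
    obtain ⟨k, hk, hk0⟩ := gg_self hr hn
    rw [pow_mul, hk, node_zero_pow, ← node_one] at h1
    have h3 := congrFun (node_inj h1).2 0
    rw [hk0] at h3
    exact ih N' (by nlinarith) hN' h3

/-- The word: the commutator of the first letter with its conjugate by the second letter. -/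
def word : FreeGroup (Fin 2) :=
  FreeGroup.of 0 * (FreeGroup.of 1 * FreeGroup.of 0 * (FreeGroup.of 1)⁻¹) *
    (FreeGroup.of 0)⁻¹ * (FreeGroup.of 1 * FreeGroup.of 0 * (FreeGroup.of 1)⁻¹)⁻¹

theorem lift_word {H : Type} [Group H] (x : Fin 2 → H) :
    FreeGroup.lift x word = ⁅x 0, x 1 * x 0 * (x 1)⁻¹⁆ := by
  simp [word, commutatorElement_def]

theorem word_ne_one : word ≠ 1 := by
  intro h
  have h1 : FreeGroup.lift (![swap 0 1, swap 1 2] : Fin 2 → Perm (Fin 3)) word = 1 := by
    rw [h, map_one]
  rw [lift_word] at h1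
  revert h1
  decide

theorem engel_eval (x : Fin 2 → G r n) (k : ℕ) :
    ((FreeGroup.lift x (engelWord (N := 1) word k) : G r n) : Perm (List (V r n))) =
      (stepF id (fun _ : Unit => (x 1 : Perm (List (V r n)))))^[k]
        (fun _ => (x 0 : Perm (List (V r n)))) () := by
  induction k with
  | zero => simp [engelWord]
  | succ k ih =>
    rw [lift_engelWord_succ, lift_word, Function.iterate_succ_apply']
    simp only [Function.update_self]
    have h1 : Function.update x 0 (FreeGroup.lift x (engelWord (N := 1) word k)) 1 = x 1 := by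
      rw [Function.update_of_ne (by decide)]
    rw [h1]
    simp only [commutatorElement_def, Subgroup.coe_mul, Subgroup.coe_inv]
    rw [ih]
    rfl

/-- The group satisfies the identity. -/
theorem satisfies (hr : 32 ≤ r) (hn : r < n) : SatisfiesEngel (N := 1) word (G r n) := by
  intro x
  obtain ⟨c, hc⟩ := (x 0).2
  obtain ⟨c', hc'⟩ := (x 1).2
  obtain ⟨m, hm⟩ := iterate_trivial hr hn (c + c') Unit id
    (fun _ => (x 1 : Perm (List (V r n)))) (fun _ => (x 0 : Perm (List (V r n))))
    (fun _ => hc.mono (by omega)) (fun _ => hc'.mono (by omega))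
  refine ⟨m, ?_⟩
  apply Subtype.ext
  rw [engel_eval, hm]
  rfl

end Q30.EB
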